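import Pool.Agent.MP_ee8c61_ag.Q3R.Vol
import Pool.Agent.MP_ee8c61_ag.M3KV.IKvl
import Pool.Agent.MP_ee8c61_ag.M3K.IPen

/-! The curves that are not contracted and the pencil, without the hypothesis on the root. -/

namespace Pool.Agent.MP_ee8c61_ag.Q3

open H59 M3 M3E M3K M3KV M3RESID Finset

theorem ikvl0 (hE : EOut) (hK : KOut) :
    AllI0 fun C la b o X Y => (C.sd la b o X Y).Kvl := by
  intro f la b β Q M C o X Y h hX hY Γ hΓ hn
  classical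
  have K := hK.ka 3 f M C h.ok
  have B := hE.bas 3 f C.W C.ok
  have hC := hE.cv 3 f C.W C.ok
  have hP : (M.v o).pl.o = C.W.v (C.D.e o) := (C.D.v o).symm
  have hL : Lv C.W (C.D.e o) (M.v o).pl Γ := lv_of C.ok B.toBas1 hP hΓ.bas
  have h0 : C.W.ex la (C.D.e o) = 0 := by
    rw [RIT.ex_W C K, Pi.add_apply, ((hK.kb 3 f M C h.ok).alive o).1 h.alive, h.alive, h.zero,
      add_zero]
  have hc : Y.c1 (C.D.e o) = 0 := by
    have a : (M.a o : ℚ) ≠ 0 := Nat.cast_ne_zero.2 (h.ok.pos o).ne'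
    have q := congrFun hY.c1 (C.D.e o)
    rw [Mod.q_apply, Pi.smul_apply, h.alive] at q
    simpa [Ch.pt, Ch.hp, Mod.aa, h.zero, div_mul_cancel₀ _ a] using q
  obtain ⟨p, hp⟩ := hΓ.sur
  have hN : Nn C.W (lift (M.v o).pl Γ) Y.c1 := by
    by_contra e
    refine hn ⟨fun l q => e ?_, fun s hs s' hs' q => e (hL.nn_of hY.T1 hc hs hs' q)⟩
    obtain ⟨g, g1, g2⟩ := hY.T1.2 _ hL.ov
    obtain ⟨a, ha⟩ := hL.cov
    refine ⟨g, hY.T1.1 g g1, xx 3 l * g, fun V hV a ha => ?_, g2, ?_⟩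
    · rw [mul_assoc]
      exact mul_mem (hV _) (hY.T1.1 g g1 V hV a ha)
    · rw [mul_div_cancel_right₀ _ (left_ne_zero_of_mul (g2 a ha).1)]
      exact (hL.nc_x l).1 q
  obtain ⟨s, s1, s', s2, s3, s4⟩ := id hN
  rcases hL.dich hK.up C.ok (fun a ha => (hK.ng0 3 f C.W C.ok).lc _ _ a s s1 s' s2 ha s3) s4 with
    ⟨i, hi⟩ | hi
  · have hβ : ∀ j : C.Nb o, (C.sd la b o X Y).β j Γ = C.P (M.q (M.e j.1)) i := fun j =>
      hL.sum_cv hC ⟨p, hp⟩ hi _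
    have hx : (C.sd la b o X Y).ex Γ = dl C i + (C.sd la b o X Y).α Γ := by
      refine (RIT.eps_eq ⟨p, hp⟩ (exp_isCv C.ok hP h0 hX.rd hp hi)).trans ?_
      rw [RIT.ex_W C K, Pi.add_apply, RIT.P_sum C K h.zero]
      exact congrArg _ (sum_congr rfl fun j _ => by rw [hβ]; rfl)
    obtain ⟨c, L, n, h1, h2⟩ := pz_of hE hK h.ok hY hL.ov hN
    rcases hK.kvl f M C h.ok o i _ c L n h.alive h1 hi h2 with
      ⟨h3, j, h4, h5, h6⟩ | ⟨e, h3, h4, h5, h6⟩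
    · refine Or.inl ⟨⟨j, h5.1, h4⟩, by rw [hx, h3, zero_add], by rw [hβ, h6 j h5.1, if_pos rfl],
        fun k hk => ?_⟩
      rw [hβ, h6 _ k.2.1, if_neg fun q => hk (Subtype.ext q)]
    have h7 : ∀ j, (C.sd la b o X Y).β j Γ = 0 := fun j => by rw [hβ, h5 _ j.2.1]
    rw [SD.α, sum_eq_zero fun j _ => by rw [h7, mul_zero], add_zero, h4] at hx
    refine Or.inr ⟨h7, ?_⟩
    rw [hx]
    by_cases e1 : e = 1
    · obtain ⟨O, Z, h8⟩ := h6 e1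
      exact Or.inr ⟨by simp [e1], (exp_good_reg C.ok hP h0 h.hyp.bs hX.rd hX.rv hp h8).2⟩
    · exact Or.inl ⟨e, by omega, rfl⟩
  · obtain ⟨h1, h2⟩ := exp_good_null C.ok (hE.nb 3 f C.W C.ok) hP h0 h.hyp.bs hX.rd hX.rv hΓ hi
      hY.T1 hc hn
    exact Or.inr ⟨fun j => hL.sum_off hi _,
      Or.inr ⟨RIT.eps_eq ⟨p, hp⟩ (a := 1) (by simpa using h1), h2⟩⟩

theorem ipen0 (hE : EOut) (hK : KOut) : IPen0 := by
  classical
  intro f la b β Q M C o X Y hS hXo hY hD hP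
  have hM := hS.ok
  have ho := hS.alive
  have K := hK.ka 3 f M C hM
  have B := hE.bas 3 f C.W C.ok
  have BM := hE.bas 3 f M hM
  have hv : (M.v o).pl.o = C.W.v (C.D.e o) := (C.D.v o).symm
  have lv : ∀ {Γ}, Cv (C.sd la b o X Y).x Γ → Lv C.W (C.D.e o) (M.v o).pl Γ := fun h =>
    lv_of C.ok B.toBas1 hv h.bas
  have a0 : (M.a o : ℚ) ≠ 0 := Nat.cast_ne_zero.2 (hM.pos o).ne'
  have ept : ∀ t, C.pt la o t = M.nu + t • C.h - (la + t * (C.h o / M.a o)) • M.q M.aa :=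
    fun t => funext fun j => by
      simp only [Ch.pt, Ch.hp, Mod.ex, Mod.nu, Mod.aa, Pi.add_apply, Pi.sub_apply, Pi.smul_apply,
        Mod.q_apply, smul_eq_mul, Int.cast_natCast]
      ring
  have pt0 : ∀ t (c : C.W.J → ℤ), C.W.q c = Y.m • C.P (C.pt la o t) → c (C.D.e o) = 0 := by
    intro t c e
    have h1 := congrFun e (C.D.e o)
    have h2 : C.pt la o t o = 0 := by
      simp only [Ch.pt, Ch.hp, Pi.add_apply, Pi.sub_apply, Pi.smul_apply, hS.zero, Mod.q_apply,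
        Mod.aa, smul_eq_mul, Int.cast_natCast, div_mul_cancel₀ _ a0, sub_self, mul_zero, add_zero]
    rw [Pi.smul_apply, ho, h2, smul_zero] at h1
    exact_mod_cast (show ((c (C.D.e o) : ℤ) : ℚ) = 0 from h1)
  have cst : ∀ y : (M.v o).kf, (∀ Z : VF (M.v o).kf, Z y = 0) → ∃ c, y = algebraMap ℂ _ c := by
    intro y hy
    by_contra! h
    obtain ⟨Z, hZ⟩ := M3F.exists_der X.Co hXo.fin (M3F.tr_of_nc h)
    exact hZ (hy Z)
  have hO := BM.ov_v o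
  have hx : ∀ l, ¬Tc (M.v o).O (xx 3 l) := fun l => by
    obtain ⟨c, hc⟩ := cst _ (hP _ (IntermediateField.subset_adjoin _ _ (Or.inl ⟨l, rfl⟩)))
    exact not_tc (hO _) hc
  have tv : Triv C.W (M.v o).O (C.P (M.nu + C.t • C.h)) := by
    obtain ⟨s, hs, hG⟩ := hY.T0.2 _ hO
    have c0 := pt0 _ _ hY.c0
    have hF : ∀ g ∈ Y.T0, g ∈ (M.v o).F 0 := fun g hg => by
      have := (B.oc_v (C.D.e o) _ g).1 (hY.T0.1 g hg _ (B.ov_v _))
      rwa [c0, neg_zero, C.D.v] at this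
    have hu : Un (M.v o).O s := by
      have := (B.gen_v (C.D.e o) _ s).1 (by rwa [C.D.v])
      rw [c0, neg_zero, C.D.v] at this
      exact (M.v o).un_O.2 this
    refine triv_pt hE hK.ka hM hY.m (ept _ ▸ hY.c0) (s := s) fun V' h1 h2 =>
      gen_le hE C.ok hY.T0 (hY.T0.1 s hs) hO hG (fun s' hs' => ?_) h1 h2
    obtain ⟨c, hc⟩ := cst _ (hP _ (IntermediateField.subset_adjoin _ _
      (Or.inr ⟨_, mem_image_of_mem _ hs, _, mem_image_of_mem _ hs', rfl⟩)))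
    refine not_tc (c := c) (mul_mem (hF s' hs') hu.2.2 : s' * s⁻¹ ∈ (M.v o).O) ?_
    rw [div_eq_mul_inv, (M.v o).pl.mul _ (hF s' hs') _ hu.2.2, pi_inv (P := (M.v o).pl) hu,
      ← div_eq_mul_inv, hc]
  refine or_iff_not_imp_right.2 fun h1 => ?_
  simp only [SD.One, not_forall] at h1
  obtain ⟨j, j', Γ, Γ', v1, n1, b1, v2, n2, b2, hj⟩ := h1
  have kv := ikvl0 hE hK f la b β Q M C o X Y hS hXo hY
  have core : ∀ {j Γ}, Cv (C.sd la b o X Y).x Γ → ¬Null (C.sd la b o X Y).x (C.sd la b o X Y).S1 Γ →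
      (C.sd la b o X Y).β j Γ ≠ 0 → (C.sd la b o X Y).β j Γ = 1 ∧
        ∀ l, l ≠ j → (C.sd la b o X Y).β l Γ = 0 := fun {j Γ} h1 h2 h3 => by
    rcases kv Γ h1 h2 with ⟨l, h4⟩ | h4
    · obtain rfl : j = l := by_contra fun e => h3 (h4.2.2 j e)
      exact h4.2
    · exact absurd (h4.1 j) h3
  obtain ⟨w, hw⟩ := hD.2.1
  obtain ⟨p, p', hp, hu⟩ : ∃ p p' : ℚ, (p ≠ 0 ∨ p' ≠ 0) ∧
      w (p • M.q (M.e j.1) + p' • M.q (M.e j'.1)) = 0 := by
    by_cases h : w (M.q (M.e j.1)) = 0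
    · exact ⟨1, 0, Or.inl one_ne_zero, by simp [h]⟩
    · exact ⟨-w (M.q (M.e j'.1)), _, Or.inr h, by simp [mul_comm]⟩
  obtain ⟨c₁, c₁', c₂, c₂', n, s₁, s₂, hn, m₁, m₂, e, a₁, a₂, hG⟩ :=
    pen_sec hE hK.ng0 hK.ka hM hO hx hw tv hu
  have ey : C.W.q (c₁' + -c₂') =
      n • (p • C.P (M.q (M.e j.1)) + p' • C.P (M.q (M.e j'.1))) := by
    rw [← sub_eq_add_neg, C.W.q_sub, m₁.eq, m₂.eq, ← map_sub, e, map_smul, map_add, map_smul,
      map_smul]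
  have y0 : (c₁' + -c₂') (C.D.e o) = 0 := by
    have h1 := congrFun ey (C.D.e o)
    simp only [Pi.smul_apply, Pi.add_apply, ho _, Mod.q_apply, M.e_apply, if_neg j.2.1.symm,
      if_neg j'.2.1.symm, Int.cast_zero, smul_zero, add_zero] at h1
    exact_mod_cast h1
  have ord : ∀ {Γ}, Cv (C.sd la b o X Y).x Γ → s₁ / s₂ ∈ (M.v o).F 0 ∧
      (Γ.v ((M.v o).pl.π (s₁ / s₂)) : ℚ) =
        -(n * (p * (C.sd la b o X Y).β j Γ + p' * (C.sd la b o X Y).β j' Γ)) := fun {Γ} h => by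
    obtain ⟨g₁, g₂⟩ := hG _ lift_le (lv h).ov
    obtain ⟨h1, -, h2⟩ := ((lv h).gen_iff y0).1
      (B.gen_mul _ _ _ _ _ g₁ (B.gen_inv _ _ _ g₂))
    rw [← div_eq_mul_inv] at h1 h2
    refine ⟨h1, ?_⟩
    rw [h2]
    simp only [Ch.sd, mul_sum, ← sum_add_distrib]
    push_cast
    refine congrArg _ (sum_congr rfl fun i _ => ?_)
    have h3 := congrFun ey i
    simp only [Pi.smul_apply, Pi.add_apply, Mod.q_apply, smul_eq_mul] at h3
    rw [Pi.add_apply, h3]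
    ring
  refine ⟨(M.v o).pl.π (s₁ / s₂), ?_, fun Γ'' v3 n3 hc => ?_⟩
  · by_contra! h
    obtain ⟨c, hc⟩ := cst _ h
    have h1 := (ord v1).2
    have h2 := (ord v2).2
    rw [hc, DV.cst, (core v1 n1 b1).1, (core v1 n1 b1).2 j' (Ne.symm hj)] at h1
    rw [hc, DV.cst, (core v2 n2 b2).1, (core v2 n2 b2).2 j hj] at h2
    simp only [Int.cast_zero, mul_one, mul_zero, add_zero, zero_add, zero_eq_neg, mul_eq_zero,
      hn.ne', false_or] at h1 h2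
    exact hp.elim (fun h => h h1) fun h => h h2
  have L := lv v3
  have hx' : ∀ l, ¬Tc (lift (M.v o).pl Γ'') (xx 3 l) := fun l h =>
    n3.1 l ((nc_iff (hO _)).2 h)
  have tv' : Triv C.W (lift (M.v o).pl Γ'') (C.P (M.nu + Y.t1 • C.h)) := by
    obtain ⟨s, hs, hG⟩ := hY.T1.2 _ L.ov
    have c0 := pt0 _ _ hY.c1
    refine triv_pt hE hK.ka hM hY.m (ept _ ▸ hY.c1) (s := s) fun V' h1 h2 =>
      gen_le hE C.ok hY.T1 (hY.T1.1 s hs) L.ov hG (fun s' hs' h => ?_) h1 h2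
    obtain ⟨h3, h4⟩ := L.pi_ratio c0 (hY.T1.1 s' hs') hG
    exact n3.2 _ ((L.gns_iff hY.T1 c0 hs).2 hG) _ (mem_image_of_mem _ hs')
      (h4 ▸ (nc_iff h3.1).2 h)
  obtain ⟨g₁, g₂⟩ := hG _ lift_le L.ov
  obtain ⟨W', D', h, i, h1, h2⟩ := null_dl hE hK hM ho L.ov lift_le
    (fun c L' hp n => not_nn_of_triv hE hK.ng0 hK.ka hM L.ov hx' hY.inn tv' hp n) m₁ m₂ a₁ a₂ g₁ g₂
    ((nc_iff (ord v3).1).1 hc)
  have h3 : Exp (dvf f la) (M.v o).pl.o 0 := by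
    have := exp_v hM la o
    rwa [hS.zero, Rat.cast_zero] at this
  have h4 : (C.sd la b o X Y).ex Γ'' = W'.ex la i :=
    M3Z.Fl.exp_eq (f := f) (M := W') (P := (M.v o).pl) (G := Γ''.pl) (e := D'.e (C.D.e o))
      ⟨h.ok, hE.bas 3 f W' h.ok, hE.der 3 f W' h.ok, hE.cv 3 f W' h.ok, rowUnr,
        ((D'.v _).trans (C.D.v o)).symm, v3.sur, h1⟩ h3 hXo.rd
      ((iVol0 f la b β Q M C o X Y hS hXo hY).exp Γ'' v3)
  have h5 : (C.sd la b o X Y).α Γ'' = (refine C D' h).P (M.ex la) i := by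
    show _ = D'.pb (C.P (M.ex la)) i
    rw [← sum_pb hE h.ok C.ok D' L v3.sur h1 ((ho _).trans hS.zero), P_nb hK.ka C hM hS.zero]
    simp only [SD.α, Ch.sd, mul_sum, Finset.sum_apply, Pi.smul_apply, smul_eq_mul, sum_mul,
      mul_assoc]
    exact sum_comm
  have h6 : M.ex la = M.nu - la • M.q M.aa := funext fun j => by
    simp [Mod.ex, Mod.nu, Mod.aa]
  rw [h4, h5, h6, map_sub, map_smul, (hK.ka 3 f M (refine C D' h) hM).aa]
  have h7 : (W'.k i : ℚ) + 1 - (refine C D' h).P M.nu i = 0 := h2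
  show (W'.k i : ℚ) + 1 - la * W'.a i = (refine C D' h).P M.nu i - la * ((W'.a i : ℤ) : ℚ)
  rw [Int.cast_natCast]
  linarith

end Pool.Agent.MP_ee8c61_ag.Q3
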